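import Mathlib

namespace Pool.Agent.Results.MP_1ed8ce_co.SevenCycle

open SimpleGraph Finset

/-- the least number of edges whose deletion leaves a bipartite graph -/
noncomputable def gamma2 {V : Type} (G : SimpleGraph V) : ℕ :=
  sInf {k | ∃ S ⊆ G.edgeSet, S.ncard = k ∧ (G.deleteEdges S).IsBipartite}

def sz (m : ℕ) (i : Fin 7) : ℕ := if i = 0 ∨ i = 6 then m + 4 else 2

abbrev V (m : ℕ) := Σ i : Fin 7, Fin (sz m i)

def G (m : ℕ) : SimpleGraph (V m) := (cycleGraph 7).comap Sigma.fst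

instance (m : ℕ) : DecidableRel (G m).Adj := fun u v =>
  inferInstanceAs (Decidable ((cycleGraph 7).Adj u.1 v.1))

lemma deg (m : ℕ) (v : V m) : (G m).degree v = sz m (v.1 - 1) + sz m (v.1 + 1) := by
  have : (G m).neighborFinset v = ({v.1 - 1, v.1 + 1} : Finset (Fin 7)).sigma fun _ => univ := by
    have : ∀ i j : Fin 7, (cycleGraph 7).Adj i j ↔ j = i - 1 ∨ j = i + 1 := by decide
    ext u; simp [G, this]
  have h : ∀ i : Fin 7, i - 1 ≠ i + 1 := by decide
  rw [degree, this, card_sigma, sum_pair (h _)]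
  simp

def w (m : ℕ) (p : Fin 2 × Fin 2) (i : Fin 7) : V m :=
  ⟨i, ⟨if i = 0 ∨ i = 6 then 2 * p.1 + p.2 else if i.val % 2 = 0 then p.1 else p.2, by
    unfold sz; split_ifs <;> omega⟩⟩

lemma le_gamma (m : ℕ) : 4 ≤ gamma2 (G m) := by
  refine le_csInf ⟨_, _, le_rfl, rfl, ⟨Coloring.mk (fun _ => 0) (by simp)⟩⟩ ?_
  rintro _ ⟨S, -, rfl, ⟨c⟩⟩
  have : ∀ p, ∃ i, s(w m p i, w m p (i + 1)) ∈ S := fun p => by
    by_contra h
    push Not at h
    have a : ∀ i : Fin 7, (cycleGraph 7).Adj i (i + 1) := by decide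
    have v : ∀ i, c (w m p i) ≠ c (w m p (i + 1)) := fun i => c.valid (deleteEdges_adj.mpr ⟨a i, h i⟩)
    have := v 0; have := v 1; have := v 2; have := v 3; have := v 4; have := v 5; have := v 6
    simp only [Fin.reduceAdd] at *
    omega
  choose f hf using this
  have key : ∀ p q : Fin 2 × Fin 2, ∀ i j : Fin 7,
      let c := fun (p : Fin 2 × Fin 2) (i : Fin 7) => (i, if i = 0 ∨ i = 6 then 2 * p.1.val + p.2
        else if i.val % 2 = 0 then p.1 else p.2)
      (c p i = c q j ∧ c p (i + 1) = c q (j + 1)) ∨ (c p i = c q (j + 1) ∧ c p (i + 1) = c q j) →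
        p = q := by decide +kernel
  have := Set.ncard_le_ncard_of_injOn (s := Set.univ) (t := S) _ (fun p _ => hf p)
    fun p _ q _ e => key p q (f p) (f q) ((Sym2.eq_iff.mp e).imp
      (And.imp (congrArg fun v : V m => (v.1, v.2.val)) (congrArg fun v : V m => (v.1, v.2.val)))
      (And.imp (congrArg fun v : V m => (v.1, v.2.val)) (congrArg fun v : V m => (v.1, v.2.val))))
  simpa using this

/-- For k = 2, b = 4: arbitrarily large C5-free, K4-free graphs meeting the edge bound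
with gamma2 at least 4. -/
theorem result (N : ℕ) : ∃ (V : Type) (_ : Fintype V) (G : SimpleGraph V), N ≤ Fintype.card V ∧
    (cycleGraph 5).Free G ∧
    (Fintype.card V - 8 + 2) ^ 2 / 4 + Nat.choose 4 2 + Nat.choose 4 2 ≤ G.edgeSet.ncard ∧
    4 ≤ gamma2 G ∧ G.CliqueFree 4 := by
  have c : Fintype.card (V N) = 2 * N + 18 := by simp [Fin.sum_univ_seven, sz]; ring
  refine ⟨V N, inferInstance, G N, by omega, fun ⟨φ⟩ => ?_, ?_, le_gamma N, ?_⟩
  · have a : ∀ i j, (cycleGraph 5).Adj i j → (cycleGraph 7).Adj (φ i).1 (φ j).1 :=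
      fun i j h => φ.toHom.map_rel h
    exact (by decide +kernel : ∀ a b : Fin 7, (cycleGraph 7).Adj a b → ∀ c, (cycleGraph 7).Adj b c →
      ∀ d, (cycleGraph 7).Adj c d → ∀ e, (cycleGraph 7).Adj d e → ¬ (cycleGraph 7).Adj e a) _ _
      (a 0 1 (by decide)) _ (a 1 2 (by decide)) _ (a 2 3 (by decide)) _ (a 3 4 (by decide))
      (a 4 0 (by decide))
  · have h := (G N).sum_degrees_eq_twice_card_edges
    simp only [deg, Fintype.sum_sigma, sum_const, card_univ, Fintype.card_fin, Fin.sum_univ_seven] at h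
    simp +decide [sz] at h
    rw [c, ← coe_edgeFinset, Set.ncard_coe_finset, show 2 * N + 18 - 8 + 2 = 2 * (N + 6) by omega,
      mul_pow, show 2 ^ 2 = 4 from rfl, Nat.mul_div_cancel_left _ (by norm_num)]
    simp only [Nat.choose]
    nlinarith
  · refine CliqueFree.mono (m := 3) (by norm_num) fun s hs => ?_
    obtain ⟨x, y, z, h1, h2, h3, -⟩ := is3Clique_iff.mp hs
    exact (by decide : ∀ a b : Fin 7, (cycleGraph 7).Adj a b → ∀ c, (cycleGraph 7).Adj a c →
      ¬ (cycleGraph 7).Adj b c) _ _ h1 _ h2 h3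

end Pool.Agent.Results.MP_1ed8ce_co.SevenCycle
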